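import Pool.Agent.U580.ETA

set_option autoImplicit false

/-!
# Every arc carries energy: sets with `a_n ≤ C n^2`, and the distance to functions with a spectral gap
-/

open Filter Topology MeasureTheory
open scoped ENNReal
open Pool.Agent.H303R3 Pool.Agent.H303R3.ET

namespace Pool.Agent.U580.ET

/-- Power series with complex coefficients. -/
noncomputable def Pc (P : ℕ → ℂ) : PowerSeries ℂ := PowerSeries.mk P

/-- The energy of `P` on an arc. -/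
noncomputable def arcE (P : ℕ → ℂ) (ζ : ℂ) (δ ρ : ℝ) : ℝ :=
  ∫ θ in {θ : ℝ | θ ∈ Set.Ioc 0 (2 * Real.pi) ∧ ‖Complex.exp (θ * Complex.I) - ζ‖ < δ},
    ‖∑' n : ℕ, P n * (ρ * Complex.exp (θ * Complex.I)) ^ n‖ ^ 2

theorem lint_arc {P : ℕ → ℂ} (hP : Conv (Pc P)) (ζ : ℂ) (δ : ℝ) {ρ : ℝ} (h0 : 0 ≤ ρ) (h1 : ρ < 1) :
    ∫⁻ θ in Arc ζ δ, ‖ev (Pc P) (circleMap 0 ρ θ)‖ₑ ^ (2 : ℝ) ∂mu ≤
      ENNReal.ofReal (arcE P ζ δ ρ) := by
  have hset : {θ : ℝ | θ ∈ Set.Ioc 0 (2 * Real.pi) ∧ ‖Complex.exp (θ * Complex.I) - ζ‖ < δ} =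
      Arc ζ δ ∩ Set.Ioc 0 (2 * Real.pi) := by
    ext θ
    unfold Arc
    simp only [Set.mem_inter_iff, Set.mem_ofPred_eq, circleMap_zero, Complex.ofReal_one, one_mul]
    tauto
  have hval : ∀ θ : ℝ, ‖∑' n : ℕ, P n * (ρ * Complex.exp (θ * Complex.I)) ^ n‖ ^ 2 =
      ‖ev (Pc P) (circleMap 0 ρ θ)‖ ^ 2 := by
    intro θ
    unfold ev Pc
    simp only [PowerSeries.coeff_mk, circleMap_zero]
  have hc : Continuous fun θ : ℝ => ‖ev (Pc P) (circleMap 0 ρ θ)‖ ^ 2 := (ev_cont hP h0 h1).norm.pow 2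
  unfold arcE
  simp_rw [hval]
  rw [hset]
  have hint : Integrable (fun θ : ℝ => ‖ev (Pc P) (circleMap 0 ρ θ)‖ ^ 2)
      (volume.restrict (Arc ζ δ ∩ Set.Ioc 0 (2 * Real.pi))) :=
    (hc.integrableOn_Icc (a := 0) (b := 2 * Real.pi)).mono_set
      (Set.inter_subset_right.trans Set.Ioc_subset_Icc_self)
  rw [ofReal_integral_eq_lintegral_ofReal hint (Eventually.of_forall fun θ => by positivity)]
  unfold mu
  rw [Measure.restrict_smul, lintegral_smul_measure, Measure.restrict_restrict (arc_meas ζ δ),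
    smul_eq_mul]
  refine (mul_le_mul' mu_const_le (lintegral_mono fun θ => ?_)).trans (le_of_eq (one_mul _))
  rw [ENNReal.ofReal_pow (norm_nonneg _), ofReal_norm, ENNReal.rpow_two]

theorem arcE_nonneg (P : ℕ → ℂ) (ζ : ℂ) (δ ρ : ℝ) : 0 ≤ arcE P ζ δ ρ := by
  unfold arcE
  exact integral_nonneg fun θ => by positivity

/-- the triangle inequality for the energy on the arc -/
theorem arc_tri {R P : PowerSeries ℂ} (hR : Conv R) (hP : Conv P) (ζ : ℂ) (δ : ℝ) {ρ : ℝ}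
    (h0 : 0 ≤ ρ) (h1 : ρ < 1) :
    ∫⁻ θ in Arc ζ δ, ‖ev R (circleMap 0 ρ θ)‖ₑ ^ (2 : ℝ) ∂mu ≤
      2 * ∫⁻ θ in Arc ζ δ, ‖ev P (circleMap 0 ρ θ)‖ₑ ^ (2 : ℝ) ∂mu +
      2 * ∫⁻ θ, ‖ev (R + (-1 : ℂ) • P) (circleMap 0 ρ θ)‖ₑ ^ (2 : ℝ) ∂mu := by
  have hD : Conv (R + (-1 : ℂ) • P) := hR.add (hP.smul _)
  have mP : Measurable fun θ : ℝ => ‖ev P (circleMap 0 ρ θ)‖ₑ ^ (2 : ℝ) :=
    (ev_cont hP h0 h1).measurable.enorm.pow_const _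
  have mD : Measurable fun θ : ℝ => ‖ev (R + (-1 : ℂ) • P) (circleMap 0 ρ θ)‖ₑ ^ (2 : ℝ) :=
    (ev_cont hD h0 h1).measurable.enorm.pow_const _
  have hpt : ∀ θ : ℝ, ‖ev R (circleMap 0 ρ θ)‖ₑ ^ (2 : ℝ) ≤
      2 * ‖ev P (circleMap 0 ρ θ)‖ₑ ^ (2 : ℝ) +
        2 * ‖ev (R + (-1 : ℂ) • P) (circleMap 0 ρ θ)‖ₑ ^ (2 : ℝ) := by
    intro θ
    have hz : ‖circleMap 0 ρ θ‖ < 1 := by rw [norm_circleMap_zero, abs_of_nonneg h0]; exact h1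
    have e1 : ev R (circleMap 0 ρ θ) = ev P (circleMap 0 ρ θ) +
        ev (R + (-1 : ℂ) • P) (circleMap 0 ρ θ) := by
      rw [ev_add hR (hP.smul _) hz, ev_smul]
      ring
    rw [e1]
    obtain ⟨a, ha⟩ : ∃ a, a = ev P (circleMap 0 ρ θ) := ⟨_, rfl⟩
    obtain ⟨b, hb⟩ : ∃ b, b = ev (R + (-1 : ℂ) • P) (circleMap 0 ρ θ) := ⟨_, rfl⟩
    rw [← ha, ← hb]
    have e2 : ∀ x : ℂ, ‖x‖ₑ ^ (2 : ℝ) = ENNReal.ofReal (‖x‖ ^ 2) := by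
      intro x
      rw [ENNReal.ofReal_pow (norm_nonneg _), ofReal_norm, ENNReal.rpow_two]
    rw [e2, e2, e2, ← ENNReal.ofReal_ofNat, ← ENNReal.ofReal_mul (by norm_num),
      ← ENNReal.ofReal_mul (by norm_num), ← ENNReal.ofReal_add (by positivity) (by positivity)]
    apply ENNReal.ofReal_le_ofReal
    have h3 := norm_add_le a b
    have h4 : ‖a + b‖ ^ 2 ≤ (‖a‖ + ‖b‖) ^ 2 := pow_le_pow_left₀ (norm_nonneg _) h3 2
    nlinarith [sq_nonneg (‖a‖ - ‖b‖)]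
  calc ∫⁻ θ in Arc ζ δ, ‖ev R (circleMap 0 ρ θ)‖ₑ ^ (2 : ℝ) ∂mu
      ≤ ∫⁻ θ in Arc ζ δ, (2 * ‖ev P (circleMap 0 ρ θ)‖ₑ ^ (2 : ℝ) +
        2 * ‖ev (R + (-1 : ℂ) • P) (circleMap 0 ρ θ)‖ₑ ^ (2 : ℝ)) ∂mu :=
        lintegral_mono fun θ => hpt θ
    _ = 2 * ∫⁻ θ in Arc ζ δ, ‖ev P (circleMap 0 ρ θ)‖ₑ ^ (2 : ℝ) ∂mu +
        2 * ∫⁻ θ in Arc ζ δ, ‖ev (R + (-1 : ℂ) • P) (circleMap 0 ρ θ)‖ₑ ^ (2 : ℝ) ∂mu := by
        rw [lintegral_add_left (mP.const_mul _), lintegral_const_mul _ mP, lintegral_const_mul _ mD]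
    _ ≤ _ := by
        gcongr
        exact Measure.restrict_le_self

theorem Rn_le_rep (A : Set ℕ) (n : ℕ) : Rn A (Mo (k := 2)) n ≤ rep A n := by
  classical
  refine (Rn_le A _ n).trans (le_of_eq ?_)
  have h2 := coeff_Fs_one (k := 2) A n
  rw [Fs_one, sq, coeff_ind_sq] at h2
  exact_mod_cast h2.symm

theorem rep_Pc (A : Set ℕ) : ind A * ind A = Pc (fun n => (rep A n : ℂ)) := by
  ext n
  rw [coeff_ind_sq]
  unfold Pc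
  rw [PowerSeries.coeff_mk]

theorem conv_Pc_iff {P : ℕ → ℂ} : Conv (Pc P) ↔
    ∀ s : ℝ, 0 ≤ s → s < 1 → Summable fun n : ℕ => ‖P n‖ * s ^ n := by
  unfold Conv Pc
  simp only [PowerSeries.coeff_mk]

/-- The main inequality. -/
theorem arc_main (C : ℝ) (K : ℕ) {ζ : ℂ} (hζ : ‖ζ‖ = 1) {δ : ℝ} (hδ : 0 < δ) :
    ∃ c : ℝ, 0 < c ∧ ∀ A : Set ℕ, A.Infinite →
      (∀ n, (Nat.nth (· ∈ A) n : ℝ) ≤ C * ((n : ℝ) + 1) ^ 2) → (∀ n, rep A n ≤ K) →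
      ∀ᶠ ρ : ℝ in 𝓝[<] 1, ∀ P : ℕ → ℂ,
        (∀ s : ℝ, 0 ≤ s → s < 1 → Summable fun n : ℕ => ‖P n‖ * s ^ n) →
        c ≤ (1 - ρ) * (arcE P ζ δ ρ + ∑' n, ‖(rep A n : ℂ) - P n‖ ^ 2 * (ρ ^ 2) ^ n) := by
  obtain ⟨C', hC'⟩ : ∃ C' : ℝ, C' = max C 1 := ⟨_, rfl⟩
  have hC1 : 1 ≤ C' := by rw [hC']; exact le_max_right _ _
  have hCC : C ≤ C' := by rw [hC']; exact le_max_left _ _
  obtain ⟨q, hq⟩ : ∃ q : ℕ, q = ⌈32 * C'⌉₊ := ⟨_, rfl⟩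
  have hqC : 32 * C' ≤ q := by rw [hq]; exact Nat.le_ceil _
  have hq1 : 1 ≤ q := by
    have : (1 : ℝ) ≤ q := by linarith
    exact_mod_cast this
  obtain ⟨c, hc, H⟩ := main_arcq (k := 2) le_rfl (K := max K 1) (le_max_right _ _) hq1 hζ hδ
  refine ⟨c / 4, by positivity, fun A hA hg hK => ?_⟩
  have hlow : ∀ᶠ r : ℝ in 𝓝[<] 1, (1 - r ^ 2)⁻¹ ≤ q * fr A (r ^ 2) ^ 2 := by
    filter_upwards [Ioo_mem_nhdsLT (show (0 : ℝ) < 1 by norm_num),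
      tendsto_T.eventually_ge_atTop (8 * C')] with r hr hr2
    have h1 : r ^ 2 < 1 := by nlinarith [hr.1, hr.2]
    have h2 := fr_sq_ge hA hC1 (fun n => (hg n).trans (by gcongr)) (q := r ^ 2) (by positivity) h1 hr2
    have hT : 0 < (1 - r ^ 2)⁻¹ := inv_pos.2 (by linarith)
    have h3 : (1 - r ^ 2)⁻¹ = (32 * C') * (1 / (32 * C') * (1 - r ^ 2)⁻¹) := by
      field_simp
    rw [h3]
    gcongr
  have H1 := H A hlow (fun n => ((Rn_le_rep A n).trans (hK n)).trans (le_max_left _ _))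
  filter_upwards [H1, Ioo_mem_nhdsLT (show (0 : ℝ) < 1 by norm_num)] with r hr hr2 P hP
  obtain ⟨h0, h1⟩ := hr2
  have hPc : Conv (Pc P) := conv_Pc_iff.2 hP
  have hR : Conv (ind A * ind A) := conv_sq A
  have e1 : ∫⁻ θ in Arc ζ δ, ‖ev (ind A) (circleMap 0 r θ)‖ₑ ^ (2 * (2 : ℕ) : ℝ) ∂mu =
      ∫⁻ θ in Arc ζ δ, ‖ev (ind A * ind A) (circleMap 0 r θ)‖ₑ ^ (2 : ℝ) ∂mu := by
    apply lintegral_congr
    intro θ
    have hz : ‖circleMap 0 r θ‖ < 1 := by rw [norm_circleMap_zero, abs_of_nonneg h0.le]; exact h1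
    rw [ev_mul (conv_ind A) (conv_ind A) hz, enorm_mul, ← sq, ← ENNReal.rpow_natCast,
      ← ENNReal.rpow_mul]
    congr 1
  have h3 := arc_tri hR hPc ζ δ h0.le h1
  have h4 := lint_arc hPc ζ δ h0.le h1
  have h5 := lint_parseval (hR.add (hPc.smul (-1))) h0.le h1
  have e2 : ∀ n, ‖PowerSeries.coeff n (ind A * ind A + (-1 : ℂ) • Pc P)‖ ^ 2 * (r ^ 2) ^ n =
      ‖(rep A n : ℂ) - P n‖ ^ 2 * (r ^ 2) ^ n := by
    intro n
    rw [map_add, PowerSeries.coeff_smul, coeff_ind_sq]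
    unfold Pc
    rw [PowerSeries.coeff_mk]
    congr 3
    rw [smul_eq_mul]
    ring
  rw [tsum_congr e2] at h5
  obtain ⟨S, hS⟩ : ∃ S : ℝ, S = ∑' n, ‖(rep A n : ℂ) - P n‖ ^ 2 * (r ^ 2) ^ n := ⟨_, rfl⟩
  have hS0 : 0 ≤ S := by rw [hS]; exact tsum_nonneg fun n => by positivity
  obtain ⟨E, hE⟩ : ∃ E : ℝ, E = arcE P ζ δ r := ⟨_, rfl⟩
  have hE0 : 0 ≤ E := by rw [hE]; exact arcE_nonneg _ _ _ _
  rw [← hS] at h5 ⊢
  rw [← hE] at h4 ⊢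
  rw [e1] at hr
  have e4 : ENNReal.ofReal (2 * E + 2 * S) = 2 * ENNReal.ofReal E + 2 * ENNReal.ofReal S := by
    rw [ENNReal.ofReal_add (by positivity) (by positivity), ENNReal.ofReal_mul (p := 2) (by norm_num),
      ENNReal.ofReal_mul (p := 2) (by norm_num), ENNReal.ofReal_ofNat]
  have h6 : ENNReal.ofReal (c * (1 - r ^ 2)⁻¹) ≤ ENNReal.ofReal (2 * E + 2 * S) := by
    rw [e4]
    refine (hr.trans h3).trans ?_
    rw [h5]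
    gcongr
  rw [ENNReal.ofReal_le_ofReal_iff (by positivity)] at h6
  have h7 : (0 : ℝ) < 1 - r := by linarith
  have h8 : (0 : ℝ) < 1 + r := by linarith
  have e3 : (1 - r ^ 2)⁻¹ = (1 - r)⁻¹ * (1 + r)⁻¹ := by
    rw [← mul_inv]
    congr 1
    ring
  rw [e3] at h6
  have h9 : c * (1 + r)⁻¹ ≤ (1 - r) * (2 * E + 2 * S) := by
    have := mul_le_mul_of_nonneg_left h6 h7.le
    refine le_trans (le_of_eq ?_) this
    field_simp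
  have h10 : (1 : ℝ) / 2 ≤ (1 + r)⁻¹ := by
    rw [one_div]
    apply inv_anti₀ h8
    linarith
  have h11 : c * (1 / 2) ≤ c * (1 + r)⁻¹ := by gcongr
  linarith

theorem conv_of_growth {P : ℕ → ℂ} {D : ℝ} (h : ∀ n : ℕ, ‖P n‖ ≤ D * ((n : ℝ) + 1) ^ 2) : Conv (Pc P) := by
  refine Conv.of_le (b := fun n => D * ((n : ℝ) + 1) ^ 2) (fun n => ?_) ?_
  · unfold Pc
    rw [PowerSeries.coeff_mk]
    exact h n
  · intro ρ h0 h1
    have h3 := summable_pow_mul_geometric_of_norm_lt_one (R := ℝ) 1 (r := ρ) (by rwa [Real.norm_of_nonneg h0])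
    have h4 := summable_pow_mul_geometric_of_norm_lt_one (R := ℝ) 2 (r := ρ) (by rwa [Real.norm_of_nonneg h0])
    simp only [pow_one] at h3
    refine (((h4.add (h3.mul_left 2)).add (summable_geometric_of_lt_one h0 h1)).mul_left D).congr
      fun n => ?_
    ring

/-- Functions without energy on the arc stay at positive mean square distance. -/
theorem gap_main (C : ℝ) (K : ℕ) {ζ : ℂ} (hζ : ‖ζ‖ = 1) {δ : ℝ} (hδ : 0 < δ) :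
    ∃ c : ℝ, 0 < c ∧ ∀ A : Set ℕ, A.Infinite →
      (∀ n, (Nat.nth (· ∈ A) n : ℝ) ≤ C * ((n : ℝ) + 1) ^ 2) → (∀ n, rep A n ≤ K) →
      (∀ᶠ ρ : ℝ in 𝓝[<] 1, ∀ P : ℕ → ℂ,
        (∀ s : ℝ, 0 ≤ s → s < 1 → Summable fun n : ℕ => ‖P n‖ * s ^ n) →
        c ≤ (1 - ρ) * (arcE P ζ δ ρ + ∑' n, ‖(rep A n : ℂ) - P n‖ ^ 2 * (ρ ^ 2) ^ n)) ∧
      ∀ P : ℕ → ℂ, (∀ ε : ℝ, 0 < ε → ∃ᶠ ρ : ℝ in 𝓝[<] 1, (1 - ρ) * arcE P ζ δ ρ ≤ ε) →
        ∃ᶠ N : ℕ in atTop, c * N < ∑ n ∈ Finset.range N, ‖(rep A n : ℂ) - P n‖ ^ 2 := by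
  obtain ⟨c, hc, H⟩ := arc_main C K hζ hδ
  refine ⟨c / 4, by positivity, fun A hA hg hK => ?_⟩
  have H1 := H A hA hg hK
  constructor
  · filter_upwards [H1] with ρ h P hP
    have := h P hP
    linarith
  intro P hP hcon
  have hcon' : ∀ᶠ N : ℕ in atTop, ∑ n ∈ Finset.range N, ‖(rep A n : ℂ) - P n‖ ^ 2 ≤ (c / 4) * N := by
    filter_upwards [hcon] with N hN
    exact not_lt.1 hN
  obtain ⟨D, hD0, hD⟩ := ev_bound hcon'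
  have hgr : ∀ n : ℕ, ‖P n‖ ≤ (K + (c / 4 + D + 1)) * ((n : ℝ) + 1) ^ 2 := by
    intro n
    have h1 := hD (n + 1)
    have h2 : ‖(rep A n : ℂ) - P n‖ ^ 2 ≤ ∑ m ∈ Finset.range (n + 1), ‖(rep A m : ℂ) - P m‖ ^ 2 :=
      Finset.single_le_sum (f := fun m => ‖(rep A m : ℂ) - P m‖ ^ 2) (fun _ _ => sq_nonneg _)
        (Finset.mem_range.mpr (Nat.lt_succ_self n))
    have hn : (0 : ℝ) ≤ n := Nat.cast_nonneg _
    have h3 : ‖(rep A n : ℂ) - P n‖ ≤ (c / 4 + D + 1) * ((n : ℝ) + 1) ^ 2 := by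
      push_cast at h1
      have h4 : ‖(rep A n : ℂ) - P n‖ ^ 2 ≤ (c / 4 + D) * ((n : ℝ) + 1) := by nlinarith
      have h5 : ‖(rep A n : ℂ) - P n‖ ≤ ‖(rep A n : ℂ) - P n‖ ^ 2 + 1 := by
        nlinarith [sq_nonneg (‖(rep A n : ℂ) - P n‖ - 1), norm_nonneg ((rep A n : ℂ) - P n)]
      have h6 : (c / 4 + D) * ((n : ℝ) + 1) + 1 ≤ (c / 4 + D + 1) * ((n : ℝ) + 1) := by nlinarith
      have h7 : (c / 4 + D + 1) * ((n : ℝ) + 1) ≤ (c / 4 + D + 1) * ((n : ℝ) + 1) ^ 2 := by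
        apply mul_le_mul_of_nonneg_left _ (by positivity)
        nlinarith
      linarith
    have h8 : ‖P n‖ ≤ ‖(rep A n : ℂ)‖ + ‖(rep A n : ℂ) - P n‖ := by
      have := norm_sub_le (rep A n : ℂ) ((rep A n : ℂ) - P n)
      rwa [sub_sub_cancel] at this
    have h9 : ‖(rep A n : ℂ)‖ ≤ K := by
      rw [Complex.norm_natCast]
      exact_mod_cast hK n
    have h10 : (K : ℝ) ≤ K * ((n : ℝ) + 1) ^ 2 := by
      have h0 : (0 : ℝ) ≤ K := Nat.cast_nonneg _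
      exact le_mul_of_one_le_right h0 (by nlinarith)
    linarith
  have hPc : Conv (Pc P) := conv_of_growth hgr
  have hdc : Conv (Pc fun n => (rep A n : ℂ) - P n) := by
    have h1 : Pc (fun n => (rep A n : ℂ) - P n) = ind A * ind A + (-1 : ℂ) • Pc P := by
      ext n
      rw [map_add, PowerSeries.coeff_smul, coeff_ind_sq]
      unfold Pc
      rw [PowerSeries.coeff_mk, PowerSeries.coeff_mk, smul_eq_mul]
      ring
    rw [h1]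
    exact (conv_sq A).add (hPc.smul _)
  have hlim : Tendsto (fun ρ : ℝ => (1 - ρ) * D) (𝓝[<] 1) (𝓝 0) := by
    have h1 : Tendsto (fun ρ : ℝ => (1 - ρ) * D) (𝓝 1) (𝓝 ((1 - 1) * D)) :=
      ((continuous_const.sub continuous_id).mul continuous_const).tendsto 1
    rw [sub_self, zero_mul] at h1
    exact h1.mono_left nhdsWithin_le_nhds
  have hev : ∀ᶠ ρ : ℝ in 𝓝[<] 1, (1 - ρ) * D < c / 4 :=
    hlim.eventually (gt_mem_nhds (by positivity))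
  obtain ⟨ρ, hρ1, ⟨hρ2, hρ3⟩, hρ4⟩ := ((hP (c / 4) (by positivity)).and_eventually
    ((H1.and (Ioo_mem_nhdsLT (show (0 : ℝ) < 1 by norm_num))).and hev)).exists.imp
      fun ρ h => (⟨h.1, ⟨h.2.1.1, h.2.1.2⟩, h.2.2⟩ : _ ∧ (_ ∧ _) ∧ _)
  obtain ⟨h0, h1⟩ := hρ3
  have h2 := hρ2 P (conv_Pc_iff.1 hPc)
  have h3 : Summable fun n => ‖(rep A n : ℂ) - P n‖ ^ 2 * (ρ ^ 2) ^ n := by
    have h4 := (parseval hdc h0.le h1).summable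
    unfold Pc at h4
    simpa only [PowerSeries.coeff_mk] using h4
  have hq1 : ρ ^ 2 < 1 := by nlinarith
  have h4 := abel_le (q := ρ ^ 2) (by positivity) hq1 h3 hD
  have h5 : (1 - ρ) * (1 - ρ ^ 2)⁻¹ ≤ 1 := by
    have e3 : (1 - ρ ^ 2)⁻¹ = (1 - ρ)⁻¹ * (1 + ρ)⁻¹ := by
      rw [← mul_inv]
      congr 1
      ring
    have h7 : (0 : ℝ) < 1 - ρ := by linarith
    rw [e3, ← mul_assoc, mul_inv_cancel₀ h7.ne', one_mul]
    apply inv_le_one_of_one_le₀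
    linarith
  have h6 : (1 - ρ) * ∑' n, ‖(rep A n : ℂ) - P n‖ ^ 2 * (ρ ^ 2) ^ n ≤ c / 4 + (1 - ρ) * D := by
    calc (1 - ρ) * ∑' n, ‖(rep A n : ℂ) - P n‖ ^ 2 * (ρ ^ 2) ^ n
        ≤ (1 - ρ) * (c / 4 * (1 - ρ ^ 2)⁻¹ + D) := by
          apply mul_le_mul_of_nonneg_left h4
          linarith
      _ = c / 4 * ((1 - ρ) * (1 - ρ ^ 2)⁻¹) + (1 - ρ) * D := by ring
      _ ≤ c / 4 * 1 + (1 - ρ) * D := by gcongr
      _ = _ := by ring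
  rw [mul_add] at h2
  linarith

end Pool.Agent.U580.ET
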